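import Pool.Agent.ZAR.Stmts

/-!
# Row LV2: a plane curve with two arcs of independent tangents is singular
-/

namespace Pool.Agent.ZAR.H10

open MvPowerSeries Pool.Agent.ZAR

theorem cc_subst {K : Type} [Field K] {n m : ℕ} {a : Fin n → MvPowerSeries (Fin m) K}
    (ha : ∀ i, constantCoeff (a i) = 0) (f : MvPowerSeries (Fin n) K) :
    constantCoeff (subst a f) = constantCoeff f := by
  have hs : HasSubst a := hasSubst_of_constantCoeff_zero ha
  rw [constantCoeff_subst hs, finsum_eq_single _ (0 : Fin n →₀ ℕ)]
  · simp
  · intro d hd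
    have h1 : constantCoeff (d.prod fun s e => a s ^ e) = 0 := by
      obtain ⟨i, hi⟩ := Finsupp.ne_iff.1 hd
      rw [Finsupp.prod, map_prod]
      refine Finset.prod_eq_zero (Finsupp.mem_support_iff.2 hi) ?_
      rw [map_pow, ha, zero_pow hi]
    rw [h1, smul_zero]

theorem grad_zero {K : Type} [Field K] (hcha : CHAStmt) {n : ℕ}
    {a : Fin n → MvPowerSeries (Fin 1) K} (ha : ∀ i, constantCoeff (a i) = 0)
    {f : MvPowerSeries (Fin n) K} (hf : subst a f = 0) :
    ∑ i, constantCoeff (pderiv K i f) * tg a i = 0 := by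
  have h1 := hcha K n 1 a ha f 0
  rw [hf, map_zero] at h1
  have h2 := congrArg constantCoeff h1
  rw [map_zero, map_sum] at h2
  rw [h2]
  refine Finset.sum_congr rfl fun i _ => ?_
  rw [map_mul, cc_subst ha]
  rfl

theorem lv2 (hcha : CHAStmt) : LV2Stmt := by
  intro K _ I a b ha hb hab htop
  have hcc : ∀ f ∈ I, constantCoeff f = 0 := by
    intro f hf
    rw [← cc_subst ha.1 f, ha.2 f hf, map_zero]
  have hgr : ∀ f ∈ I, ∀ i, constantCoeff (pderiv K i f) = 0 := by
    intro f hf
    have h1 := grad_zero hcha ha.1 (ha.2 f hf)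
    have h2 := grad_zero hcha hb.1 (hb.2 f hf)
    rw [Fin.sum_univ_two] at h1 h2
    set p := constantCoeff (pderiv K 0 f) with hp
    set q := constantCoeff (pderiv K 1 f) with hq
    -- the determinant is not zero
    have hdet : tg a 0 * tg b 1 - tg a 1 * tg b 0 ≠ 0 := by
      intro h0
      rw [LinearIndependent.pair_iff] at hab
      by_cases hz : tg a 0 = 0 ∧ tg a 1 = 0
      · have h3 := hab 1 0 (by
          ext i
          fin_cases i
          · simp [hz.1]
          · simp [hz.2])
        exact one_ne_zero h3.1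
      · by_cases hz0 : tg a 0 = 0
        · have hz1 : tg a 1 ≠ 0 := fun h => hz ⟨hz0, h⟩
          have h3 := hab (tg b 1) (-tg a 1) (by
            ext i
            fin_cases i
            · simp only [Fin.zero_eta, Pi.add_apply, Pi.smul_apply, smul_eq_mul, Pi.zero_apply]
              linear_combination h0
            · simp only [Fin.mk_one, Pi.add_apply, Pi.smul_apply, smul_eq_mul, Pi.zero_apply]
              ring)
          exact hz1 (neg_eq_zero.1 h3.2)
        · have h3 := hab (tg b 0) (-tg a 0) (by
            ext i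
            fin_cases i
            · simp only [Fin.zero_eta, Pi.add_apply, Pi.smul_apply, smul_eq_mul, Pi.zero_apply]
              ring
            · simp only [Fin.mk_one, Pi.add_apply, Pi.smul_apply, smul_eq_mul, Pi.zero_apply]
              linear_combination -h0)
          exact hz0 (neg_eq_zero.1 h3.2)
    have hp0 : p = 0 := by
      have : (tg a 0 * tg b 1 - tg a 1 * tg b 0) * p = 0 := by
        linear_combination tg b 1 * h1 - tg a 1 * h2
      exact (mul_eq_zero.1 this).resolve_left hdet
    have hq0 : q = 0 := by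
      have : (tg a 0 * tg b 1 - tg a 1 * tg b 0) * q = 0 := by
        linear_combination -tg b 0 * h1 + tg a 0 * h2
      exact (mul_eq_zero.1 this).resolve_left hdet
    intro i
    fin_cases i
    · exact hp0
    · exact hq0
  have hle : singI I ≤ mI 2 K := by
    unfold singI
    rw [Ideal.span_le]
    rintro g (hg | ⟨f, hf, i, rfl⟩)
    · exact RingHom.mem_ker.2 (hcc g hg)
    · exact RingHom.mem_ker.2 (hgr f hf i)
  rw [htop] at hle
  have h1 : (1 : MvPowerSeries (Fin 2) K) ∈ mI 2 K := hle (Submodule.mem_top)
  have h2 : constantCoeff (1 : MvPowerSeries (Fin 2) K) = 0 := RingHom.mem_ker.1 h1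
  rw [map_one] at h2
  exact one_ne_zero h2

end Pool.Agent.ZAR.H10
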