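import Pool.Agent.ZAR.Stmts

/-!
# Row RDS: the radical of a stable ideal is stable (characteristic 0)
-/

namespace Pool.Agent.ZAR.H10

open MvPowerSeries Pool.Agent.ZAR

theorem rad_stable {K A : Type*} [Field K] [CharZero K] [CommRing A] [Algebra K A]
    (D : Derivation K A A) (I : Ideal A) (h : ∀ f ∈ I, D f ∈ I) :
    ∀ g ∈ I.radical, D g ∈ I.radical := by
  rintro g ⟨n, hn⟩
  have key : ∀ k m, m + k = n → g ^ m * D g ^ (2 * k) ∈ I := by
    intro k
    induction k with
    | zero =>
      intro m hm
      rw [add_zero] at hm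
      rw [hm, mul_zero, pow_zero, mul_one]
      exact hn
    | succ k ih =>
      intro m hm
      have h1 := ih (m + 1) (by omega)
      have h2 := I.mul_mem_left (D g) (h _ h1)
      have h3 : D g * D (g ^ (m + 1) * D g ^ (2 * k)) =
          ((2 * k : ℕ) : A) * D (D g) * (g ^ (m + 1) * D g ^ (2 * k)) +
            ((m + 1 : ℕ) : A) * (g ^ m * D g ^ (2 * (k + 1))) := by
        rw [D.leibniz, D.leibniz_pow, D.leibniz_pow]
        simp only [smul_eq_mul, nsmul_eq_mul, Nat.add_sub_cancel]
        rcases Nat.eq_zero_or_pos k with h0 | h0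
        · subst h0
          simp only [mul_zero, Nat.cast_zero, zero_mul, pow_zero, zero_add, mul_one]
          ring
        · obtain ⟨j, rfl⟩ := Nat.exists_eq_add_of_lt h0
          have e1 : 2 * (0 + j + 1) - 1 = 2 * j + 1 := by omega
          rw [e1]
          ring
      rw [h3] at h2
      have h4 : ((m + 1 : ℕ) : A) * (g ^ m * D g ^ (2 * (k + 1))) ∈ I :=
        (I.add_mem_iff_right (I.mul_mem_left _ h1)).1 h2
      have h5 := I.mul_mem_left (algebraMap K A (((m + 1 : ℕ) : K)⁻¹)) h4
      have h6 : algebraMap K A (((m + 1 : ℕ) : K)⁻¹) * (((m + 1 : ℕ) : A) *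
          (g ^ m * D g ^ (2 * (k + 1)))) = g ^ m * D g ^ (2 * (k + 1)) := by
        rw [← mul_assoc, ← map_natCast (algebraMap K A), ← map_mul, inv_mul_cancel₀, map_one,
          one_mul]
        exact_mod_cast Nat.succ_ne_zero m
      rwa [h6] at h5
  have h7 := key n 0 (zero_add n)
  rw [pow_zero, one_mul] at h7
  exact ⟨2 * n, h7⟩

theorem rds : RDSStmt := by
  intro K _ _ n e I hI
  let D : Derivation K (MvPowerSeries (Fin n) K) (MvPowerSeries (Fin n) K) :=
    ∑ j, (C (e j) : MvPowerSeries (Fin n) K) • pderiv K j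
  have hD : ∀ f, D f = ∑ j, C (e j) * pderiv K j f := by
    intro f
    change (∑ j, (C (e j) : MvPowerSeries (Fin n) K) • pderiv K j : Derivation K _ _) f = _
    have h1 : ∀ s : Finset (Fin n), (∑ j ∈ s, (C (e j) : MvPowerSeries (Fin n) K) • pderiv K j :
        Derivation K (MvPowerSeries (Fin n) K) (MvPowerSeries (Fin n) K)) f =
        ∑ j ∈ s, C (e j) * pderiv K j f := by
      classical
      intro s
      induction s using Finset.induction_on with
      | empty => rfl
      | insert a s ha ih =>
        rw [Finset.sum_insert ha, Finset.sum_insert ha, Derivation.add_apply, ih]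
        rfl
    exact h1 Finset.univ
  intro g hg
  rw [← hD]
  exact rad_stable D I (fun f hf => by rw [hD]; exact hI f hf) g hg

end Pool.Agent.ZAR.H10
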