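import Pool.Agent.ZAR.Stmts

/-!
# Row STV: `∂_5 fV = 0`
-/

namespace Pool.Agent.ZAR.H10

open MvPowerSeries Pool.Agent.ZAR

theorem pderiv_fV (K : Type) [Field K] : pderiv K 5 (fV K) = 0 := by
  have h0 : pderiv K (5 : Fin 6) (X 0 : MvPowerSeries (Fin 6) K) = 0 := pderiv_X_of_ne (by decide)
  have h1 : pderiv K (5 : Fin 6) (X 1 : MvPowerSeries (Fin 6) K) = 0 := pderiv_X_of_ne (by decide)
  have h2 : pderiv K (5 : Fin 6) (X 2 : MvPowerSeries (Fin 6) K) = 0 := pderiv_X_of_ne (by decide)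
  have h3 : pderiv K (5 : Fin 6) (X 3 : MvPowerSeries (Fin 6) K) = 0 := pderiv_X_of_ne (by decide)
  have h4 : pderiv K (5 : Fin 6) (X 4 : MvPowerSeries (Fin 6) K) = 0 := pderiv_X_of_ne (by decide)
  unfold fV
  simp only [Derivation.leibniz, Derivation.leibniz_pow, map_add, map_sub, h0, h1, h2, h3, h4,
    smul_zero, add_zero, sub_zero]

theorem stv : STVStmt := by
  intro K _ f hf
  obtain ⟨g, rfl⟩ := Ideal.mem_span_singleton'.1 hf
  have h1 : ∑ j, C ((Pi.single 5 1 : Fin 6 → K) j) * pderiv K j (g * fV K) =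
      pderiv K 5 (g * fV K) := by
    rw [Finset.sum_eq_single 5]
    · rw [Pi.single_eq_same, map_one, one_mul]
    · intro j _ hj
      rw [Pi.single_eq_of_ne hj, map_zero, zero_mul]
    · intro h
      exact absurd (Finset.mem_univ _) h
  rw [h1, Derivation.leibniz, pderiv_fV, smul_zero, zero_add, smul_eq_mul]
  exact Ideal.mul_mem_right _ _ (Ideal.mem_span_singleton_self _)

end Pool.Agent.ZAR.H10
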